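import Pool.Agent.V11129.RootedPos
import Pool.Agent.V11129.TutteDef

/-!
# The power of `x` dividing the Tutte polynomial of a rooted graph
-/

set_option autoImplicit false

namespace Pool.Agent.Results.MP_4c49f5_co.RootLeaves

open Finset Pool.Agent.V11129

universe u v

variable {V : Type u} {E : Type v}

/-- A set of edges is feasible if it is the edge set of a tree containing the root: there is a set
`W` of vertices containing the root and all ends of the edges of `F`, all vertices of `W` are joined
to the root by edges of `F`, and `|F| = |W| - 1`. -/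
def Feasible (ends : E → Sym2 V) (root : V) (F : Finset E) : Prop :=
  ∃ W : Finset V, root ∈ W ∧ (∀ e ∈ F, ∀ v ∈ ends e, v ∈ W) ∧
    (∀ v ∈ W, (spanningSub ends F).Reachable root v) ∧ F.card + 1 = W.card

open Classical in
/-- The rank of `A`: the largest size of a feasible subset of `A`. -/
noncomputable def grk (ends : E → Sym2 V) (root : V) (A : Finset E) : ℕ :=
  (A.powerset.filter fun F => Feasible ends root F).sup Finset.card

/-- The Tutte polynomial of the rooted graph with edge set `S`, with `x = X 0`, `y = X 1`. -/
noncomputable def tutteRooted (ends : E → Sym2 V) (S : Finset E) (root : V) :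
    MvPolynomial (Fin 2) ℤ :=
  ∑ A ∈ S.powerset, (MvPolynomial.X 0 - 1) ^ (grk ends root S - grk ends root A) *
    (MvPolynomial.X 1 - 1) ^ (A.card - grk ends root A)

open Classical in
/-- The leaves incident to the root, loops being disregarded: vertices `v` different from the root
with exactly one non-loop edge, and this edge joins `v` to the root. -/
noncomputable def rootLeaves [Fintype V] (ends : E → Sym2 V) (S : Finset E) (root : V) : Finset V :=
  univ.filter fun v => v ≠ root ∧ ∃ e ∈ S, ends e = s(root, v) ∧
    ∀ f ∈ S, v ∈ ends f → ¬ (ends f).IsDiag → f = e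

theorem mem_rootLeaves [Fintype V] (ends : E → Sym2 V) (S : Finset E) (root v : V) :
    v ∈ rootLeaves ends S root ↔ v ≠ root ∧ ∃ e ∈ S, ends e = s(root, v) ∧
      ∀ f ∈ S, v ∈ ends f → ¬ (ends f).IsDiag → f = e := by
  unfold rootLeaves
  simp only [Finset.mem_filter, Finset.mem_univ, true_and]

section Rank

open Classical in
/-- The vertices in the component of the root. -/
noncomputable def rch [Fintype V] (ends : E → Sym2 V) (root : V) (A : Finset E) : Finset V :=
  univ.filter fun v => (spanningSub ends A).Reachable root v

theorem mem_rch [Fintype V] (ends : E → Sym2 V) (root : V) (A : Finset E) (v : V) :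
    v ∈ rch ends root A ↔ (spanningSub ends A).Reachable root v := by
  unfold rch
  simp only [Finset.mem_filter, Finset.mem_univ, true_and]

theorem spanningSub_mono (ends : E → Sym2 V) {A B : Finset E} (h : A ⊆ B) :
    spanningSub ends A ≤ spanningSub ends B := by
  apply SimpleGraph.fromEdgeSet_mono
  rintro e ⟨a, ha, hae⟩
  exact ⟨a, h ha, hae⟩

theorem adj_iff (ends : E → Sym2 V) (A : Finset E) (a b : V) :
    (spanningSub ends A).Adj a b ↔ (∃ e ∈ A, ends e = s(a, b)) ∧ a ≠ b := by
  rw [spanningSub, SimpleGraph.fromEdgeSet_adj]
  rfl

theorem reach_of_edge (ends : E → Sym2 V) (A : Finset E) (e : E) (he : e ∈ A) (u v : V)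
    (h : ends e = s(u, v)) : (spanningSub ends A).Reachable u v := by
  by_cases huv : u = v
  · rw [huv]
  · apply SimpleGraph.Adj.reachable
    rw [spanningSub, SimpleGraph.fromEdgeSet_adj]
    exact ⟨⟨e, he, h⟩, huv⟩

theorem mem_filter_feasible (ends : E → Sym2 V) (root : V) (A F : Finset E) :
    (open Classical in F ∈ A.powerset.filter fun F => Feasible ends root F) ↔
      F ⊆ A ∧ Feasible ends root F := by
  simp only [Finset.mem_filter, Finset.mem_powerset]

theorem grk_add_one [Fintype V] (ends : E → Sym2 V) (root : V) (A : Finset E) :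
    grk ends root A + 1 = (rch ends root A).card := by
  classical
  have hroot : root ∈ rch ends root A := (mem_rch _ _ _ _).2 (SimpleGraph.Reachable.refl _)
  apply le_antisymm
  · have h1 : grk ends root A ≤ (rch ends root A).card - 1 := by
      unfold grk
      apply Finset.sup_le
      intro F hF
      rw [mem_filter_feasible] at hF
      obtain ⟨hFA, W, hr, hW, hW2, hcard⟩ := hF
      have : W ⊆ rch ends root A := by
        intro v hv
        rw [mem_rch]
        exact (hW2 v hv).mono (spanningSub_mono ends hFA)
      have := Finset.card_le_card this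
      omega
    have : 0 < (rch ends root A).card := Finset.card_pos.2 ⟨root, hroot⟩
    omega
  · -- a maximal feasible subset
    have hempty : Feasible ends root ∅ := by
      refine ⟨{root}, Finset.mem_singleton_self _, by simp, ?_, by simp⟩
      intro v hv
      rw [Finset.mem_singleton] at hv
      rw [hv]
    have hne : (A.powerset.filter fun F => Feasible ends root F).Nonempty :=
      ⟨∅, (mem_filter_feasible ends root A ∅).2 ⟨Finset.empty_subset _, hempty⟩⟩
    obtain ⟨F, hF, hmax⟩ := Finset.exists_max_image _ Finset.card hne
    have hF' := (mem_filter_feasible ends root A F).1 hF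
    obtain ⟨hFA, W, hr, hW, hW2, hcard⟩ := hF'
    have hle : F.card ≤ grk ends root A := Finset.le_sup hF
    have hsub : rch ends root A ⊆ W := by
      by_contra hcon
      rw [Finset.not_subset] at hcon
      obtain ⟨z, hz, hzW⟩ := hcon
      rw [mem_rch] at hz
      obtain ⟨p⟩ := hz
      obtain ⟨d, -, hd1, hd2⟩ := p.exists_boundary_dart (W : Set V) hr hzW
      obtain ⟨⟨e, he, hee⟩, hne⟩ := (adj_iff ends A _ _).1 d.adj
      have heF : e ∉ F := by
        intro h
        exact hd2 (hW e h _ (by rw [hee]; exact Sym2.mem_mk_right _ _))
      have hfeas : Feasible ends root (insert e F) := by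
        refine ⟨insert d.snd W, Finset.mem_insert_of_mem hr, ?_, ?_, ?_⟩
        · intro f hf v hv
          rcases Finset.mem_insert.1 hf with rfl | hf
          · rw [hee, Sym2.mem_iff] at hv
            rcases hv with rfl | rfl
            · exact Finset.mem_insert_of_mem hd1
            · exact Finset.mem_insert_self _ _
          · exact Finset.mem_insert_of_mem (hW f hf v hv)
        · have hreach : ∀ v ∈ W, (spanningSub ends (insert e F)).Reachable root v := by
            intro v hv
            exact (hW2 v hv).mono (spanningSub_mono ends (Finset.subset_insert _ _))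
          intro v hv
          rcases Finset.mem_insert.1 hv with rfl | hv
          · exact (hreach _ hd1).trans (reach_of_edge ends _ e (Finset.mem_insert_self _ _) _ _ hee)
          · exact hreach v hv
        · rw [Finset.card_insert_of_notMem heF, Finset.card_insert_of_notMem hd2, hcard]
      have := hmax (insert e F) ((mem_filter_feasible ends root A _).2
        ⟨Finset.insert_subset he hFA, hfeas⟩)
      rw [Finset.card_insert_of_notMem heF] at this
      omega
    have := Finset.card_le_card hsub
    omega

theorem grk_le_card [Fintype V] (ends : E → Sym2 V) (root : V) (A : Finset E) :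
    grk ends root A ≤ A.card := by
  classical
  unfold grk
  apply Finset.sup_le
  intro F hF
  exact Finset.card_le_card ((mem_filter_feasible ends root A F).1 hF).1

theorem grk_mono [Fintype V] (ends : E → Sym2 V) (root : V) {A B : Finset E} (h : A ⊆ B) :
    grk ends root A ≤ grk ends root B := by
  classical
  have h1 := grk_add_one ends root A
  have h2 := grk_add_one ends root B
  have h3 : (rch ends root A).card ≤ (rch ends root B).card := by
    apply Finset.card_le_card
    intro v hv
    rw [mem_rch] at hv ⊢
    exact hv.mono (spanningSub_mono ends h)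
  omega

variable [Fintype V] [DecidableEq V]

theorem reached_iff (ends : E → Sym2 V) (root : V) (A : Finset E) (v : V) :
    Reached ends (univ.erase root) A v ↔ (spanningSub ends A).Reachable root v := by
  constructor
  · intro h
    induction h with
    | @base v h =>
      have : v = root := by
        by_contra hne
        exact h (Finset.mem_erase.2 ⟨hne, Finset.mem_univ _⟩)
      rw [this]
    | step he hee _ ih => exact ih.trans (reach_of_edge ends A _ he _ _ hee)
  · rintro ⟨w⟩
    have key : ∀ (a b : V), (spanningSub ends A).Walk a b → Reached ends (univ.erase root) A a →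
        Reached ends (univ.erase root) A b := by
      intro a b w
      induction w with
      | nil => exact id
      | cons hadj _ ih =>
        intro h
        rw [spanningSub, SimpleGraph.fromEdgeSet_adj] at hadj
        obtain ⟨⟨e, he, hee⟩, -⟩ := hadj
        exact ih (Reached.step he hee h)
    exact key _ _ w (Reached.base (Finset.notMem_erase _ _))

open Classical in
/-- The rank in terms of `Reached`. -/
theorem grk_eq (ends : E → Sym2 V) (root : V) (A : Finset E) :
    grk ends root A = ((univ.erase root).filter fun v =>
      Reached ends (univ.erase root) A v).card := by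
  have h1 := grk_add_one ends root A
  have h2 : rch ends root A = insert root ((univ.erase root).filter fun v =>
      Reached ends (univ.erase root) A v) := by
    ext v
    rw [mem_rch, Finset.mem_insert, Finset.mem_filter, Finset.mem_erase, reached_iff]
    constructor
    · intro h
      by_cases hv : v = root
      · exact Or.inl hv
      · exact Or.inr ⟨⟨hv, Finset.mem_univ _⟩, h⟩
    · rintro (rfl | h)
      · exact SimpleGraph.Reachable.refl _
      · exact h.2
  rw [h2, Finset.card_insert_of_notMem] at h1
  · omega
  · intro h
    rw [Finset.mem_filter] at h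
    exact Finset.notMem_erase _ _ h.1

/-- The evaluation at `x = 0`, `y = 1/2`. -/
noncomputable def ev : MvPolynomial (Fin 2) ℤ →+* ℚ :=
  MvPolynomial.eval₂Hom (Int.castRingHom ℚ) ![0, 1 / 2]

theorem ev_X0 : ev (MvPolynomial.X 0) = 0 := by
  simp [ev]

theorem ev_X1 : ev (MvPolynomial.X 1) = 1 / 2 := by
  simp [ev]

variable [DecidableEq E]

theorem ev_tutte (ends : E → Sym2 V) (S : Finset E) (root : V) :
    FF ends (univ.erase root) S (fun _ => -1) (fun _ => -2) =
      (-1) ^ ((univ.erase root).card + grk ends root S) * ev (tutteRooted ends S root) := by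
  classical
  rw [tutteRooted, map_sum, FF, Finset.mul_sum]
  apply Finset.sum_congr rfl
  intro A hA
  rw [Finset.mem_powerset] at hA
  rw [map_mul, map_pow, map_pow, map_sub, map_sub, ev_X0, ev_X1, map_one, Finset.prod_ite,
    Finset.prod_const, Finset.prod_const]
  have h1 := grk_eq ends root A
  have h2 := grk_le_card ends root A
  have h3 := grk_mono ends root hA
  have h4 : ((univ.erase root).filter fun v => Reached ends (univ.erase root) A v).card +
      ((univ.erase root).filter fun v => ¬ Reached ends (univ.erase root) A v).card =
      (univ.erase root).card := Finset.card_filter_add_card_filter_not _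
  rw [← h1] at h4 ⊢
  obtain ⟨a, ha⟩ := Nat.exists_eq_add_of_le h2
  obtain ⟨b, hb⟩ := Nat.exists_eq_add_of_le h3
  set c := ((univ.erase root).filter fun v => ¬ Reached ends (univ.erase root) A v).card
  set g := grk ends root A
  rw [← h4, ha, hb]
  have e1 : g + b - g = b := by omega
  have e2 : g + a - g = a := by omega
  rw [e1, e2]
  have e3 : (-1 / 2 : ℚ) ^ (g + a) * ((-2) ^ g * (-1) ^ c) = (-1 / 2) ^ a * (-1) ^ c := by
    rw [pow_add]
    have : (-1 / 2 : ℚ) ^ g * (-2) ^ g = 1 := by
      rw [← mul_pow]
      norm_num
    calc (-1 / 2 : ℚ) ^ g * (-1 / 2) ^ a * ((-2) ^ g * (-1) ^ c)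
        = ((-1 / 2 : ℚ) ^ g * (-2) ^ g) * ((-1 / 2) ^ a * (-1) ^ c) := by ring
      _ = _ := by rw [this, one_mul]
  have e4 : (-1 : ℚ) ^ (g + c + (g + b)) * ((0 - 1) ^ b * (1 / 2 - 1) ^ a) =
      (-1 / 2) ^ a * (-1) ^ c := by
    have h5 : (0 - 1 : ℚ) = -1 := by norm_num
    have h6 : (1 / 2 - 1 : ℚ) = -1 / 2 := by norm_num
    rw [h5, h6]
    have h7 : (-1 : ℚ) ^ (g + c + (g + b)) * (-1) ^ b = (-1) ^ c := by
      rw [← pow_add]
      have : g + c + (g + b) + b = c + 2 * (g + b) := by ring
      rw [this, pow_add, pow_mul]
      norm_num
    calc (-1 : ℚ) ^ (g + c + (g + b)) * ((-1) ^ b * (-1 / 2) ^ a)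
        = ((-1 : ℚ) ^ (g + c + (g + b)) * (-1) ^ b) * (-1 / 2) ^ a := by ring
      _ = _ := by rw [h7]; ring
  rw [e3, e4]

theorem not_dvd (ends : E → Sym2 V) (S : Finset E) (root : V)
    (h : rootLeaves ends S root = ∅) :
    ¬ (MvPolynomial.X 0 : MvPolynomial (Fin 2) ℤ) ∣ tutteRooted ends S root := by
  rintro ⟨p, hp⟩
  have h1 := ev_tutte ends S root
  rw [hp, map_mul, ev_X0, zero_mul, mul_zero] at h1
  refine FF_ne_zero ends _ S (univ.erase root) _ _ rfl ?_ h1
  intro v hv
  refine Or.inr ⟨rfl, Or.inr ⟨rfl, fun hc e he u hu => ?_⟩⟩
  rw [Finset.mem_erase]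
  refine ⟨?_, Finset.mem_univ _⟩
  rintro rfl
  have hvr : v ≠ u := Finset.ne_of_mem_erase hv
  obtain ⟨f, hf⟩ := Finset.card_eq_one.1 hc
  have hef : e = f := by
    rw [hf, Finset.mem_singleton] at he
    exact he
  rw [mem_inc] at he
  have hee : ends e = s(u, v) := by
    rw [← Sym2.mem_and_mem_iff (Ne.symm hvr)]
    exact ⟨hu, he.2.1⟩
  have : v ∈ rootLeaves ends S u := by
    rw [mem_rootLeaves]
    refine ⟨hvr, e, he.1, hee, fun g hg hvg hgd => ?_⟩
    have : g ∈ inc ends S v := (mem_inc ends S v g).2 ⟨hg, hvg, hgd⟩
    rw [hf, Finset.mem_singleton] at this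
    rw [this, hef]
  rw [h] at this
  exact absurd this (Finset.notMem_empty _)

/-- A vertex whose only edges are loops is not reached. -/
theorem not_reached_loops (ends : E → Sym2 V) (W : Finset V) (A : Finset E) (v : V)
    (h : ∀ e ∈ A, v ∈ ends e → (ends e).IsDiag) (hv : v ∈ W) : ¬ Reached ends W A v := by
  have key : ∀ u, Reached ends W A u → u ≠ v := by
    intro u hu
    induction hu with
    | base h => exact fun hh => h (hh ▸ hv)
    | @step e a b he hee _ ih =>
      rintro rfl
      have := h e he (by rw [hee]; exact Sym2.mem_mk_right _ _)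
      rw [hee, Sym2.mk_isDiag_iff] at this
      exact ih this
  exact fun hh => key v hh rfl

theorem reached_loops (ends : E → Sym2 V) (W : Finset V) (A : Finset E) (v : V)
    (h : ∀ e ∈ A, v ∈ ends e → (ends e).IsDiag) (u : V) (hu : u ≠ v) :
    Reached ends W A u ↔ Reached ends (W.erase v) A u := by
  constructor
  · exact Reached.mono (Finset.erase_subset _ _) (Finset.Subset.refl _)
  · intro h1
    have : u ≠ v → Reached ends W A u := by
      induction h1 with
      | base h => exact fun hne => Reached.base fun hh => h (Finset.mem_erase.2 ⟨hne, hh⟩)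
      | @step f a b hf hff _ ih =>
        intro hb
        refine Reached.step hf hff (ih ?_ ?_)
        · rintro rfl
          have := h f hf (by rw [hff]; exact Sym2.mem_mk_left _ _)
          rw [hff, Sym2.mk_isDiag_iff] at this
          exact hb this.symm
        · rintro rfl
          have := h f hf (by rw [hff]; exact Sym2.mem_mk_left _ _)
          rw [hff, Sym2.mk_isDiag_iff] at this
          exact hb this.symm
    exact this hu

theorem grk_insert_leaf (ends : E → Sym2 V) (root : V) (A : Finset E) (e : E) (v : V)
    (hv : v ≠ root) (hee : ends e = s(root, v)) (h : ∀ f ∈ A, v ∈ ends f → (ends f).IsDiag) :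
    grk ends root (insert e A) = grk ends root A + 1 := by
  classical
  rw [grk_eq, grk_eq]
  have hvW : v ∈ univ.erase root := Finset.mem_erase.2 ⟨hv, Finset.mem_univ _⟩
  have : ((univ.erase root).filter fun u => Reached ends (univ.erase root) (insert e A) u) =
      insert v ((univ.erase root).filter fun u => Reached ends (univ.erase root) A u) := by
    ext u
    rw [Finset.mem_filter, Finset.mem_insert, Finset.mem_filter,
      reached_root ends (univ.erase root) A e root v (Finset.notMem_erase _ _) hee u]
    by_cases huv : u = v
    · rw [huv]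
      simp only [true_or, iff_true]
      exact ⟨hvW, Reached.base (Finset.notMem_erase _ _)⟩
    · rw [← reached_loops ends (univ.erase root) A v h u huv]
      simp [huv]
  rw [this, Finset.card_insert_of_notMem]
  intro hh
  rw [Finset.mem_filter] at hh
  exact not_reached_loops ends _ A v h hvW hh.2

theorem tutte_leaf (ends : E → Sym2 V) (root : V) (S : Finset E) (e : E) (heS : e ∉ S) (v : V)
    (hv : v ≠ root) (hee : ends e = s(root, v)) (h : ∀ f ∈ S, v ∈ ends f → (ends f).IsDiag) :
    tutteRooted ends (insert e S) root = MvPolynomial.X 0 * tutteRooted ends S root := by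
  rw [tutteRooted, tutteRooted, Finset.sum_powerset_insert heS, ← Finset.sum_add_distrib,
    Finset.mul_sum]
  apply Finset.sum_congr rfl
  intro A hA
  rw [Finset.mem_powerset] at hA
  have heA : e ∉ A := fun h => heS (hA h)
  rw [grk_insert_leaf ends root S e v hv hee h,
    grk_insert_leaf ends root A e v hv hee (fun f hf => h f (hA hf)),
    Finset.card_insert_of_notMem heA, Nat.add_sub_add_right, Nat.add_sub_add_right]
  have h1 := grk_mono ends root hA
  have h2 : grk ends root S + 1 - grk ends root A = grk ends root S - grk ends root A + 1 := by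
    omega
  rw [h2, pow_succ]
  ring

theorem factor (ends : E → Sym2 V) (root : V) (n : ℕ) : ∀ S : Finset E,
    (rootLeaves ends S root).card = n → ∃ S' : Finset E, rootLeaves ends S' root = ∅ ∧
      tutteRooted ends S root = MvPolynomial.X 0 ^ n * tutteRooted ends S' root := by
  induction n with
  | zero =>
    intro S hS
    exact ⟨S, Finset.card_eq_zero.1 hS, by simp⟩
  | succ n ih =>
    intro S hS
    have hne : (rootLeaves ends S root).Nonempty := by
      rw [← Finset.card_pos]
      omega
    obtain ⟨v, hv⟩ := hne
    have hv' := hv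
    rw [mem_rootLeaves] at hv'
    obtain ⟨hvr, e, heS, hee, honly⟩ := hv'
    have hed : ¬ (ends e).IsDiag := by
      rw [hee, Sym2.mk_isDiag_iff]
      exact Ne.symm hvr
    have hloops : ∀ f ∈ S.erase e, v ∈ ends f → (ends f).IsDiag := by
      intro f hf hvf
      rw [Finset.mem_erase] at hf
      by_contra hd
      exact hf.1 (honly f hf.2 hvf hd)
    have hleaves : rootLeaves ends (S.erase e) root = (rootLeaves ends S root).erase v := by
      ext u
      rw [Finset.mem_erase, mem_rootLeaves, mem_rootLeaves]
      constructor
      · rintro ⟨hur, f, hf, hff, hfo⟩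
        have huv : u ≠ v := by
          rintro rfl
          have := hloops f hf (by rw [hff]; exact Sym2.mem_mk_right _ _)
          rw [hff, Sym2.mk_isDiag_iff] at this
          exact hur this.symm
        refine ⟨huv, hur, f, Finset.mem_of_mem_erase hf, hff, fun g hg hug hgd => ?_⟩
        apply hfo g _ hug hgd
        rw [Finset.mem_erase]
        refine ⟨?_, hg⟩
        rintro rfl
        rw [hee, Sym2.mem_iff] at hug
        rcases hug with h | h
        · exact hur h
        · exact huv h
      · rintro ⟨huv, hur, f, hf, hff, hfo⟩
        refine ⟨hur, f, ?_, hff, fun g hg hug hgd => hfo g (Finset.mem_of_mem_erase hg) hug hgd⟩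
        rw [Finset.mem_erase]
        refine ⟨?_, hf⟩
        rintro rfl
        rw [hee, Sym2.eq_iff] at hff
        rcases hff with ⟨-, h⟩ | ⟨h, -⟩
        · exact huv h.symm
        · exact hur h.symm
    obtain ⟨S', hS', hT⟩ := ih (S.erase e) (by
      rw [hleaves, Finset.card_erase_of_mem hv, hS]
      rfl)
    refine ⟨S', hS', ?_⟩
    conv_lhs => rw [← Finset.insert_erase heS]
    rw [tutte_leaf ends root (S.erase e) e (Finset.notMem_erase _ _) v hvr hee hloops, hT,
      pow_succ]
    ring

end Rank

/-- **MP_4c49f5_co.** For every rooted graph (vertex set `V`, edge set `S`, root `root`), `x ^ k`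
divides the Tutte polynomial if and only if `k` is at most the number of leaves incident to the
root (loops being disregarded). -/
theorem result {V : Type u} [Fintype V] {E : Type v} (ends : E → Sym2 V) (S : Finset E) (root : V)
    (k : ℕ) :
    (MvPolynomial.X 0 : MvPolynomial (Fin 2) ℤ) ^ k ∣ tutteRooted ends S root ↔
      k ≤ (rootLeaves ends S root).card := by
  classical
  obtain ⟨S', hS', hT⟩ := factor ends root _ S rfl
  constructor
  · intro h
    by_contra hcon
    push Not at hcon
    apply not_dvd ends S' root hS'
    have h1 : (MvPolynomial.X 0 : MvPolynomial (Fin 2) ℤ) ^ ((rootLeaves ends S root).card + 1) ∣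
        tutteRooted ends S root := (pow_dvd_pow _ hcon).trans h
    rw [hT, pow_succ] at h1
    exact (mul_dvd_mul_iff_left (pow_ne_zero _ (MvPolynomial.X_ne_zero 0))).1 h1
  · intro h
    rw [hT]
    exact (pow_dvd_pow _ h).mul_right _

end Pool.Agent.Results.MP_4c49f5_co.RootLeaves
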